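import Mathlib
import Pool.Agent.H964.QC.Stm

/-! # Project QC (helper964), task LINK: the partition function of the polymer as a field -/

set_option autoImplicit false

open MeasureTheory ProbabilityTheory Filter Finset

namespace Pool.Agent.H722.QC

open Pool.Agent.H964.QC

theorem pos_zero {n : ℕ} (s : Fin n → Fin 4) : pos s 0 = 0 := by
  unfold pos
  rw [Finset.filter_false_of_mem, Finset.sum_empty]
  intro i _
  exact Nat.not_lt_zero _

theorem pos_cons {n : ℕ} (e : Fin 4) (s : Fin n → Fin 4) (k : ℕ) :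
    pos (Fin.cons e s : Fin (n + 1) → Fin 4) (k + 1) = stp e + pos s k := by
  unfold pos
  rw [Finset.sum_filter, Finset.sum_filter, Fin.sum_univ_succ]
  have e0 : (if ((0 : Fin (n + 1)) : ℕ) < k + 1 then
      stp ((Fin.cons e s : Fin (n + 1) → Fin 4) 0) else 0) = stp e := by
    rw [if_pos (by rw [Fin.val_zero]; exact Nat.succ_pos k), Fin.cons_zero]
  rw [e0]
  refine congrArg (fun t => stp e + t) ?_
  refine Finset.sum_congr rfl fun i _ => ?_
  rw [Fin.cons_succ]
  by_cases h : (i : ℕ) < k
  · rw [if_pos h, if_pos (by rw [Fin.val_succ]; exact Nat.succ_lt_succ h)]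
  · rw [if_neg h, if_neg (by rw [Fin.val_succ]; exact fun h' => h (Nat.lt_of_succ_lt_succ h'))]

theorem stp_le (z : ℤ × ℤ) (e : Fin 4) :
    |(z + stp e).1| + |(z + stp e).2| ≤ |z.1| + |z.2| + 1 := by
  have h1 : |(z + stp e).1| ≤ |z.1| + |(stp e).1| := abs_add_le _ _
  have h2 : |(z + stp e).2| ≤ |z.2| + |(stp e).2| := abs_add_le _ _
  have h3 : |(stp e).1| + |(stp e).2| = 1 := by
    fin_cases e <;> rfl
  linarith

theorem t_LINK : S_LINK := by
  intro C0 N N0 V _ _ W φ lft hN hlft hK lam b ω
  have key : ∀ j : ℕ, j ≤ N → ∀ z : ℤ × ℤ, |z.1| + |z.2| + j ≤ N0 →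
      Zr W (fun j v => Real.exp (b * ω (if j ≤ N then N + 1 - j else j + 1, lft v) - lam) - 1) j
        (φ z) = (1 / 4 ^ j) * ∑ s : Fin j → Fin 4,
          Real.exp (∑ k : Fin j, (b * ω (N - j + (k : ℕ) + 1, z + pos s ((k : ℕ) + 1)) - lam)) := by
    intro j
    induction j with
    | zero =>
      intro _ z _
      simp [Zr]
    | succ j ih =>
      intro hj z hz
      have hz' : |z.1| + |z.2| + (j : ℤ) + 1 ≤ N0 := by
        push_cast at hz
        linarith
      have h1 : ∀ e : Fin 4, lft (φ (z + stp e)) = z + stp e := by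
        intro e
        apply hlft
        have := stp_le z e
        linarith
      have h2 : ∀ e : Fin 4,
          Zr W (fun j v => Real.exp (b * ω (if j ≤ N then N + 1 - j else j + 1, lft v) - lam) - 1) j
            (φ (z + stp e)) = (1 / 4 ^ j) * ∑ s : Fin j → Fin 4,
            Real.exp (∑ k : Fin j,
              (b * ω (N - j + (k : ℕ) + 1, z + stp e + pos s ((k : ℕ) + 1)) - lam)) := by
        intro e
        apply ih (by omega)
        have := stp_le z e
        linarith
      have h3 : ∀ f : V → ℝ, ∑ v, W.K 1 (φ z) v * f v = 1 / 4 * ∑ e : Fin 4, f (φ (z + stp e)) := by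
        intro f
        have e1 : ∀ v, W.K 1 (φ z) v * f v =
            1 / 4 * ∑ e : Fin 4, if φ (z + stp e) = v then f v else 0 := by
          intro v
          rw [hK, mul_assoc, Finset.sum_mul]
          congr 1
          refine Finset.sum_congr rfl fun e _ => ?_
          split_ifs <;> ring
        rw [Finset.sum_congr rfl fun v _ => e1 v, ← Finset.mul_sum, Finset.sum_comm]
        congr 1
        refine Finset.sum_congr rfl fun e _ => ?_
        rw [Finset.sum_ite_eq, if_pos (Finset.mem_univ _)]
      have h4 : ∀ x : ℕ → V → ℝ, Zr W x (j + 1) (φ z) =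
          ∑ v, W.K 1 (φ z) v * ((1 + x (j + 1) v) * Zr W x j v) := fun _ => rfl
      rw [h4, h3]
      have h5 : ∀ e : Fin 4,
          (1 + (Real.exp (b * ω (if j + 1 ≤ N then N + 1 - (j + 1) else j + 1 + 1,
            lft (φ (z + stp e))) - lam) - 1)) = Real.exp (b * ω (N - j, z + stp e) - lam) := by
        intro e
        rw [if_pos hj, h1 e, show N + 1 - (j + 1) = N - j by omega]
        ring
      rw [Finset.sum_congr rfl fun e _ => by rw [h5 e, h2 e]]
      rw [← Fintype.sum_equiv (Fin.consEquiv (fun _ : Fin (j + 1) => Fin 4))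
        (fun p : Fin 4 × (Fin j → Fin 4) => Real.exp (b * ω (N - j, z + stp p.1) - lam) *
          Real.exp (∑ k : Fin j,
            (b * ω (N - j + (k : ℕ) + 1, z + stp p.1 + pos p.2 ((k : ℕ) + 1)) - lam))) _ ?_]
      · rw [Fintype.sum_prod_type, Finset.mul_sum, Finset.mul_sum]
        refine Finset.sum_congr rfl fun e _ => ?_
        simp only []
        rw [← Finset.mul_sum, pow_succ]
        field_simp
      · rintro ⟨e, s⟩
        change _ = Real.exp (∑ k : Fin (j + 1), (b * ω (N - (j + 1) + (k : ℕ) + 1,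
          z + pos (Fin.cons e s : Fin (j + 1) → Fin 4) ((k : ℕ) + 1)) - lam))
        rw [Fin.sum_univ_succ, Real.exp_add]
        have g1 : b * ω (N - (j + 1) + ((0 : Fin (j + 1)) : ℕ) + 1,
            z + pos (Fin.cons e s : Fin (j + 1) → Fin 4) (((0 : Fin (j + 1)) : ℕ) + 1)) - lam =
            b * ω (N - j, z + stp e) - lam := by
          have a1 : pos (Fin.cons e s : Fin (j + 1) → Fin 4) (((0 : Fin (j + 1)) : ℕ) + 1) =
              stp e := by
            rw [Fin.val_zero, pos_cons, pos_zero, add_zero]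
          have a2 : N - (j + 1) + ((0 : Fin (j + 1)) : ℕ) + 1 = N - j := by
            rw [Fin.val_zero]
            omega
          rw [a1, a2]
        have g2 : ∀ k : Fin j, b * ω (N - (j + 1) + (k.succ : ℕ) + 1,
            z + pos (Fin.cons e s : Fin (j + 1) → Fin 4) ((k.succ : ℕ) + 1)) - lam =
            b * ω (N - j + (k : ℕ) + 1, z + stp e + pos s ((k : ℕ) + 1)) - lam := by
          intro k
          have a1 : pos (Fin.cons e s : Fin (j + 1) → Fin 4) ((k.succ : ℕ) + 1) =
              stp e + pos s ((k : ℕ) + 1) := by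
            rw [Fin.val_succ, pos_cons]
          have a2 : N - (j + 1) + (k.succ : ℕ) + 1 = N - j + (k : ℕ) + 1 := by
            rw [Fin.val_succ]
            omega
          rw [a1, a2, ← add_assoc z]
        rw [g1, Finset.sum_congr rfl fun k _ => g2 k]
  rw [key N le_rfl 0 (by simpa using hN)]
  unfold PF
  congr 1
  refine Finset.sum_congr rfl fun s _ => ?_
  congr 1
  refine Finset.sum_congr rfl fun k _ => ?_
  rw [Nat.sub_self, Nat.zero_add, zero_add]

end Pool.Agent.H722.QC
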